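import Mathlib
import Pool.Agent.Helper940.SelfSim
import Pool.Agent.Helper940.SelfSimBasic
import Pool.Agent.Y381.Deg.Core
import Pool.Agent.Y381.Deg.Pairs

/-!
# Lower and upper degrees of growth of boundary Schreier graphs of contracting groups

The definitions `SelfSimilar`, `Contracting`, `growth` are in `Pool/Agent/Helper940/SelfSim.lean`.
-/

set_option autoImplicit false

namespace Pool.Agent.Results.MP_f10b34_al.DegreePairs

open Filter Topology Pool.Agent.Helper940.SelfSim

/-- `γ` is the growth function of the Schreier graph of a boundary point `ξ` for a finitely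
generated contracting self-similar group `G` acting on the words over a finite alphabet `X`, with
finite generating set `S`. -/
def IsContractingGrowth (γ : ℕ → ℕ) : Prop :=
  ∃ (X : Type) (G : Subgroup (Equiv.Perm (List X))) (S : Set (Equiv.Perm (List X)))
    (ξ : ℕ → X), Finite X ∧ SelfSimilar G ∧ Contracting G ∧ S.Finite ∧ Subgroup.closure S = G ∧
    γ = growth S ξ

/-- The pairs `(α, β)` of real numbers for which some growth function `γ` has the lower degree
`liminf log γ(n) / log n = α` and the upper degree `limsup log γ(n) / log n = β`. -/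
def degreePairs : Set (ℝ × ℝ) :=
  {p | ∃ γ : ℕ → ℕ, IsContractingGrowth γ ∧
    liminf (fun n : ℕ => ((Real.log (γ n) / Real.log n : ℝ) : EReal)) atTop = (p.1 : EReal) ∧
    limsup (fun n : ℕ => ((Real.log (γ n) / Real.log n : ℝ) : EReal)) atTop = (p.2 : EReal)}

/-- The degrees of growth, in the sense of the problem (upper limits). -/
def degreeSet : Set ℝ :=
  {β | ∃ γ : ℕ → ℕ, IsContractingGrowth γ ∧
    limsup (fun n : ℕ => ((Real.log (γ n) / Real.log n : ℝ) : EReal)) atTop = (β : EReal)}

theorem isGrowth (k : ℕ) (ξ : ℕ → Pool.Agent.Helper940.MixedTree.Al k) :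
    IsContractingGrowth (growth (Pool.Agent.Helper940.MixedTree.S k) ξ) :=
  ⟨Pool.Agent.Helper940.MixedTree.Al k, Pool.Agent.Helper940.MixedTree.G k,
    Pool.Agent.Helper940.MixedTree.S k, ξ, inferInstance,
    Pool.Agent.Helper940.MixedTree.selfSimilar_G,
    Pool.Agent.Helper940.MixedTree.contracting_G,
    Pool.Agent.Helper940.MixedTree.S_finite, rfl, rfl⟩

theorem tendsto_of_bounded {γ : ℕ → ℕ} (M : ℕ) (h1 : ∀ n, 1 ≤ γ n) (hM : ∀ n, γ n ≤ M) :
    Tendsto (fun n : ℕ => ((Real.log (γ n) / Real.log n : ℝ) : EReal)) atTop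
      (𝓝 ((0 : ℝ) : EReal)) := by
  apply (continuous_coe_real_ereal.tendsto (0 : ℝ)).comp
  have hlog : Tendsto (fun n : ℕ => Real.log (n : ℝ)) atTop atTop :=
    Real.tendsto_log_atTop.comp tendsto_natCast_atTop_atTop
  have hup : Tendsto (fun n : ℕ => Real.log M / Real.log n) atTop (𝓝 0) :=
    tendsto_const_nhds.div_atTop hlog
  refine tendsto_of_tendsto_of_tendsto_of_le_of_le' tendsto_const_nhds hup ?_ ?_
  · filter_upwards [eventually_ge_atTop 2] with n hn
    have hn' : (2 : ℝ) ≤ n := by exact_mod_cast hn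
    exact div_nonneg (Real.log_nonneg (by exact_mod_cast h1 n)) (Real.log_nonneg (by linarith))
  · filter_upwards [eventually_ge_atTop 2] with n hn
    have hn' : (2 : ℝ) ≤ n := by exact_mod_cast hn
    have hpos : (0 : ℝ) < γ n := by exact_mod_cast h1 n
    exact div_le_div_of_nonneg_right (Real.log_le_log hpos (by exact_mod_cast hM n))
      (Real.log_nonneg (by linarith))

theorem trivial_growth : ∃ γ : ℕ → ℕ, IsContractingGrowth γ ∧ (∀ n, 1 ≤ γ n) ∧ ∀ n, γ n ≤ 1 := by
  have hcl : Subgroup.closure (∅ : Set (Equiv.Perm (List (Fin 2)))) = ⊥ :=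
    Subgroup.closure_empty
  refine ⟨growth (∅ : Set (Equiv.Perm (List (Fin 2)))) (fun _ => 0),
    ⟨Fin 2, ⊥, ∅, fun _ => 0, inferInstance, ?_, ?_, Set.finite_empty, hcl, rfl⟩,
    fun n => growth_pos Set.finite_empty _ n, ?_⟩
  · intro g hg x
    rw [Subgroup.mem_bot] at hg
    subst hg
    exact ⟨x, 1, Subgroup.one_mem _, fun w => rfl⟩
  · refine ⟨{1}, Set.finite_singleton 1, by simp, fun g hg => ⟨0, fun v _ => ?_⟩⟩
    rw [Subgroup.mem_bot] at hg
    subst hg
    exact ⟨1, rfl, fun w => rfl⟩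
  · have hball : ∀ n, ball (∅ : Set (Equiv.Perm (List (Fin 2)))) (fun _ => 0) n ⊆
        {fun _ => 0} := by
      intro n
      induction n with
      | zero =>
        rintro η ⟨p, hp⟩
        have h0 : p.length = 0 := by omega
        exact (SimpleGraph.Walk.eq_of_length_eq_zero h0).symm
      | succ n ih =>
        intro ζ hζ
        rcases ball_succ _ _ n hζ with h | ⟨η, -, hadj⟩
        · exact ih h
        · rw [schreier, SimpleGraph.fromRel_adj] at hadj
          simp at hadj
    intro n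
    have := Set.ncard_le_ncard (hball n) (Set.finite_singleton _)
    rwa [Set.ncard_singleton] at this

theorem pairs_fst : degreeSet = {β | ∃ α : ℝ, (α, β) ∈ degreePairs} := by
  apply Set.Subset.antisymm
  · rintro β ⟨γ, hγ, hβ⟩
    obtain ⟨X, G, S, ξ, -, -, -, hS, -, hγS⟩ := id hγ
    have h0 : (0 : EReal) ≤
        liminf (fun n : ℕ => ((Real.log (γ n) / Real.log n : ℝ) : EReal)) atTop := by
      have : ∀ᶠ n : ℕ in atTop, (0 : EReal) ≤ ((Real.log (γ n) / Real.log n : ℝ) : EReal) := by
        filter_upwards [eventually_ge_atTop 2] with n hn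
        have hn' : (2 : ℝ) ≤ n := by exact_mod_cast hn
        have h1 : 1 ≤ γ n := by rw [hγS]; exact growth_pos hS ξ n
        have : (0 : ℝ) ≤ Real.log (γ n) / Real.log n :=
          div_nonneg (Real.log_nonneg (by exact_mod_cast h1)) (Real.log_nonneg (by linarith))
        exact_mod_cast this
      calc (0 : EReal) = liminf (fun _ : ℕ => (0 : EReal)) atTop := (liminf_const _).symm
        _ ≤ _ := liminf_le_liminf this
    have h1 : liminf (fun n : ℕ => ((Real.log (γ n) / Real.log n : ℝ) : EReal)) atTop ≤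
        (β : EReal) := by
      rw [← hβ]
      exact liminf_le_limsup
    refine ⟨(liminf (fun n : ℕ => ((Real.log (γ n) / Real.log n : ℝ) : EReal)) atTop).toReal,
      γ, hγ, ?_, hβ⟩
    simp only
    rw [EReal.coe_toReal]
    · exact ne_top_of_le_ne_top (EReal.coe_ne_top β) h1
    · intro h2
      rw [h2] at h0
      simp at h0
  · rintro β ⟨α, γ, hγ, -, hβ⟩
    exact ⟨γ, hγ, hβ⟩

/-- The degrees of growth of the boundary Schreier graphs of contracting groups are `0` and all real
numbers `β ≥ 1`. The pairs (lower degree, upper degree) are `(0, 0)` and all `(α, β)` with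
`1 ≤ α ≤ β`. Every monotone function `f` with `2 f(m) ≤ f(2m) ≤ K f(m)` is the growth function of
such a graph, up to multiplicative constants. -/
theorem result : degreeSet = {0} ∪ Set.Ici 1 ∧
    degreePairs = {p | p = (0, 0) ∨ (1 ≤ p.1 ∧ p.1 ≤ p.2)} ∧
    ∀ (f : ℕ → ℝ) (K : ℝ), (∀ m, 1 ≤ m → 0 < f m) → (∀ m n, 1 ≤ m → m ≤ n → f m ≤ f n) →
      (∀ m, 1 ≤ m → 2 * f m ≤ f (2 * m) ∧ f (2 * m) ≤ K * f m) →
      ∃ (γ : ℕ → ℕ) (c C : ℝ), IsContractingGrowth γ ∧ 0 < c ∧ 0 < C ∧
        ∀ m : ℕ, 1 ≤ m → c * f m ≤ γ m ∧ (γ m : ℝ) ≤ C * f m := by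
  have hpairs : degreePairs = {p | p = (0, 0) ∨ (1 ≤ p.1 ∧ p.1 ≤ p.2)} := by
    apply Set.Subset.antisymm
    · rintro ⟨α, β⟩ ⟨γ, ⟨X, G, S, ξ, -, -, -, hS, -, rfl⟩, hα, hβ⟩
      simp only at hα hβ
      rcases ball_dichotomy hS ξ with ⟨N, hN⟩ | h
      · left
        have hb : ∀ n, growth S ξ n ≤ growth S ξ N :=
          fun n => Set.ncard_le_ncard (hN n) (ball_finite hS ξ N)
        have h0 := tendsto_of_bounded (growth S ξ N) (fun n => growth_pos hS ξ n) hb
        have h1 : ((0 : ℝ) : EReal) = (α : EReal) := h0.liminf_eq.symm.trans hα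
        have h2 : ((0 : ℝ) : EReal) = (β : EReal) := h0.limsup_eq.symm.trans hβ
        rw [← EReal.coe_eq_coe_iff.1 h1, ← EReal.coe_eq_coe_iff.1 h2]
      · right
        have h1 : (1 : EReal) ≤
            liminf (fun n : ℕ => ((Real.log (growth S ξ n) / Real.log n : ℝ) : EReal)) atTop := by
          have : ∀ᶠ n : ℕ in atTop,
              (1 : EReal) ≤ ((Real.log (growth S ξ n) / Real.log n : ℝ) : EReal) := by
            filter_upwards [eventually_ge_atTop 2] with n hn
            have hg := h n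
            have hn' : (2 : ℝ) ≤ n := by exact_mod_cast hn
            have hlog : 0 < Real.log n := Real.log_pos (by linarith)
            have : (1 : ℝ) ≤ Real.log (growth S ξ n) / Real.log n := by
              rw [le_div_iff₀ hlog, one_mul]
              have hg' : ((n + 1 : ℕ) : ℝ) ≤ growth S ξ n := by exact_mod_cast hg
              push_cast at hg'
              exact Real.log_le_log (by linarith) (by linarith)
            exact_mod_cast this
          calc (1 : EReal) = liminf (fun _ : ℕ => (1 : EReal)) atTop := (liminf_const _).symm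
            _ ≤ _ := liminf_le_liminf this
        have h2 : liminf (fun n : ℕ => ((Real.log (growth S ξ n) / Real.log n : ℝ) : EReal)) atTop ≤
            limsup (fun n : ℕ => ((Real.log (growth S ξ n) / Real.log n : ℝ) : EReal)) atTop :=
          liminf_le_limsup
        rw [hα] at h1 h2
        rw [hβ] at h2
        exact ⟨by exact_mod_cast h1, by exact_mod_cast h2⟩
    · rintro ⟨α, β⟩ (h | ⟨h1, h2⟩)
      · rw [Prod.mk.injEq] at h
        obtain ⟨rfl, rfl⟩ := h
        obtain ⟨γ, hγ, h3, h4⟩ := trivial_growth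
        have h0 := tendsto_of_bounded 1 h3 h4
        exact ⟨γ, hγ, h0.liminf_eq, h0.limsup_eq⟩
      · obtain ⟨k, ξ, h3, h4⟩ := Pool.Agent.Y381.Deg.exists_pair (α := α) (β := β) h1 h2
        exact ⟨_, isGrowth k ξ, h3, h4⟩
  refine ⟨?_, hpairs, ?_⟩
  · rw [pairs_fst, hpairs]
    ext β
    simp only [Set.mem_ofPred_eq, Prod.mk.injEq, Set.mem_union, Set.mem_singleton_iff, Set.mem_Ici]
    constructor
    · rintro ⟨α, ⟨-, h⟩ | ⟨h1, h2⟩⟩
      · exact Or.inl h
      · exact Or.inr (h1.trans h2)
    · rintro (h | h)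
      · exact ⟨0, Or.inl ⟨rfl, h⟩⟩
      · exact ⟨β, Or.inr ⟨h, le_rfl⟩⟩
  · intro f K h1 h2 h3
    obtain ⟨k, ξ, c, C, h4, h5, h6⟩ := Pool.Agent.Y381.Deg.exists_growth_fun f K h1 h2 h3
    exact ⟨_, c, C, isGrowth k ξ, h4, h5, h6⟩

end Pool.Agent.Results.MP_f10b34_al.DegreePairs
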